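import Pool.Agent.W505.FC.FCAn

set_option autoImplicit false

namespace Pool.Agent.W505.FC

open Filter Asymptotics Pool.Agent.W232.FC

theorem rad_pos (n : ℕ) : 0 < rad n := Finset.prod_pos fun _ hp => Nat.pos_of_mem_primeFactors hp

theorem primeFactors_rad (n : ℕ) : (rad n).primeFactors = n.primeFactors := by
  unfold rad
  exact Nat.primeFactors_prod fun p hp => Nat.prime_of_mem_primeFactors hp

/-- number of prime factors -/
theorem omega_le (ρ T : ℕ) (hρ : 1 ≤ ρ) (hT : 2 ≤ T) (y : ℝ) (hy : (ρ : ℝ) ≤ Real.exp y) :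
    (ρ.primeFactors.card : ℝ) ≤ T + y / Real.log T := by
  classical
  have hlogT : 0 < Real.log T := Real.log_pos (by exact_mod_cast (by omega : 1 < T))
  have h1 : ρ.primeFactors = (ρ.primeFactors.filter (· ≤ T)) ∪ (ρ.primeFactors.filter (¬ · ≤ T)) :=
    (Finset.filter_union_filter_not_eq _ _).symm
  have h2 : (ρ.primeFactors.filter (· ≤ T)).card ≤ T := by
    have : ρ.primeFactors.filter (· ≤ T) ⊆ Finset.Icc 1 T := by
      intro p hp
      rw [Finset.mem_filter] at hp
      rw [Finset.mem_Icc]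
      exact ⟨Nat.pos_of_mem_primeFactors hp.1, hp.2⟩
    have := Finset.card_le_card this
    simpa using this
  have h3 : T ^ (ρ.primeFactors.filter (¬ · ≤ T)).card ≤ ρ := by
    have h4 : T ^ (ρ.primeFactors.filter (¬ · ≤ T)).card ≤
        ∏ p ∈ ρ.primeFactors.filter (¬ · ≤ T), p := by
      apply Finset.pow_card_le_prod
      intro p hp
      rw [Finset.mem_filter] at hp
      omega
    have h5 : ∏ p ∈ ρ.primeFactors.filter (¬ · ≤ T), p ∣ ρ :=
      (Finset.prod_dvd_prod_of_subset _ _ _ (Finset.filter_subset _ _)).trans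
        (Nat.prod_primeFactors_dvd ρ)
    exact h4.trans (Nat.le_of_dvd hρ h5)
  have h6 : ((ρ.primeFactors.filter (¬ · ≤ T)).card : ℝ) * Real.log T ≤ y := by
    have h7 : ((T : ℝ) ^ (ρ.primeFactors.filter (¬ · ≤ T)).card) ≤ Real.exp y :=
      le_trans (by exact_mod_cast h3) hy
    have hT0 : (0 : ℝ) < T := by exact_mod_cast (by omega : 0 < T)
    have h8 := Real.log_le_log (pow_pos hT0 _) h7
    rwa [Real.log_pow, Real.log_exp] at h8
  have h9 : ρ.primeFactors.card = (ρ.primeFactors.filter (· ≤ T)).card +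
      (ρ.primeFactors.filter (¬ · ≤ T)).card :=
    (Finset.card_filter_add_card_filter_not _).symm
  rw [h9]
  push_cast
  have h10 : ((ρ.primeFactors.filter (¬ · ≤ T)).card : ℝ) ≤ y / Real.log T := by
    rw [le_div_iff₀ hlogT]
    exact h6
  have h11 : ((ρ.primeFactors.filter (· ≤ T)).card : ℝ) ≤ T := by exact_mod_cast h2
  linarith

/-- number of integers with given radical -/
theorem fibre_le (X ρ : ℕ) (s : Finset ℕ) (hs : ∀ n ∈ s, 1 ≤ n ∧ n ≤ X ∧ rad n = ρ) :
    s.card ≤ (Nat.log 2 X + 1) ^ ρ.primeFactors.card := by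
  classical
  let Φ : ℕ → (ρ.primeFactors → ℕ) := fun n p => n.factorization p
  let T : Finset (ρ.primeFactors → ℕ) := Fintype.piFinset fun _ => Finset.range (Nat.log 2 X + 1)
  have hmaps : ∀ n ∈ s, Φ n ∈ T := by
    intro n hn
    obtain ⟨h1, h2, h3⟩ := hs n hn
    rw [Fintype.mem_piFinset]
    intro p
    rw [Finset.mem_range, Nat.lt_succ_iff]
    have hp := Nat.prime_of_mem_primeFactors p.2
    have h4 : (p : ℕ) ^ n.factorization p ≤ n := Nat.ordProj_le _ (by omega)
    have h5 : 2 ^ n.factorization p ≤ X :=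
      ((Nat.pow_le_pow_left hp.two_le _).trans h4).trans h2
    exact Nat.le_log_of_pow_le (by norm_num) h5
  have hinj : Set.InjOn Φ s := by
    intro n hn m hm hnm
    obtain ⟨h1, -, h3⟩ := hs n hn
    obtain ⟨h1', -, h3'⟩ := hs m hm
    apply Nat.eq_of_factorization_eq (by omega) (by omega)
    intro p
    by_cases hp : p ∈ ρ.primeFactors
    · exact congrFun hnm ⟨p, hp⟩
    · have e1 : n.factorization p = 0 := by
        rw [← Finsupp.notMem_support_iff, Nat.support_factorization, ← primeFactors_rad, h3]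
        exact hp
      have e2 : m.factorization p = 0 := by
        rw [← Finsupp.notMem_support_iff, Nat.support_factorization, ← primeFactors_rad, h3']
        exact hp
      rw [e1, e2]
  have hcard := Finset.card_le_card_of_injOn Φ hmaps hinj
  refine hcard.trans (le_of_eq ?_)
  simp [T, Fintype.card_piFinset]

theorem na_main : S_NA := by
  classical
  intro δ hδ
  have key : ∀ᶠ L : ℝ in atTop, 1 ≤ L ∧ ∃ T : ℕ, 2 ≤ T ∧
      (3 * L) ^ ((T : ℝ) + (δ * L) / Real.log T) ≤ Real.exp (3 * δ * L) := by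
    filter_upwards [ev_T 1 le_rfl, eventually_ge_atTop (3 : ℝ), eventually_gt_atTop (Real.exp 1),
      ev_log_le (a := 4) (b := δ / 2) (r := 1 / 2) (by positivity) (by norm_num),
      Real.tendsto_log_atTop.eventually_ge_atTop (4 * Real.log 3)]
      with L hT hLC hLe hlog hlog4
    obtain ⟨T, hT2, hT3, hT4⟩ := hT
    refine ⟨by linarith, T, hT2, ?_⟩
    have hL0 : 0 < L := (Real.exp_pos 1).trans hLe
    have hlogL : 1 < Real.log L := by
      rw [← Real.log_exp 1]
      exact Real.log_lt_log (Real.exp_pos 1) hLe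
    have hlogT : 0 < Real.log T := Real.log_pos (by exact_mod_cast (by omega : 1 < T))
    have h3L : 0 < 3 * L := by positivity
    have hlog3 : 0 < Real.log 3 := Real.log_pos (by norm_num)
    have hb : Real.log (3 * L) = Real.log 3 + Real.log L := by
      rw [Real.log_mul (by norm_num) hL0.ne']
    have hb0 : 0 ≤ Real.log (3 * L) := Real.log_nonneg (by linarith)
    have hb2 : Real.log (3 * L) ≤ 2 * Real.log L := by
      rw [hb]
      have := Real.log_le_log (by norm_num) hLC
      linarith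
    rw [Real.rpow_def_of_pos h3L]
    apply Real.exp_le_exp.mpr
    have hT5 : (T : ℝ) ≤ 2 * L ^ (1 / 2 : ℝ) := by simpa using hT3
    have hT6 : (1 / 2) * Real.log L ≤ Real.log T := by simpa using hT4
    have hE2 : (δ * L) / Real.log T ≤ 2 * δ * L / Real.log L := by
      rw [div_le_div_iff₀ hlogT (by linarith)]
      have h1 : 2 * δ * L * ((1 / 2) * Real.log L) ≤ 2 * δ * L * Real.log T :=
        mul_le_mul_of_nonneg_left hT6 (by positivity)
      linarith
    have p1 : Real.log (3 * L) * (T : ℝ) ≤ δ / 2 * L := by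
      calc Real.log (3 * L) * (T : ℝ) ≤ (2 * Real.log L) * (2 * L ^ (1 / 2 : ℝ)) :=
            mul_le_mul hb2 hT5 (by positivity) (by linarith)
        _ = (4 * Real.log L) * L ^ (1 / 2 : ℝ) := by ring
        _ ≤ (δ / 2 * L ^ (1 / 2 : ℝ)) * L ^ (1 / 2 : ℝ) :=
            mul_le_mul_of_nonneg_right hlog (by positivity)
        _ = δ / 2 * L := by
            rw [mul_assoc, ← Real.rpow_add hL0]
            norm_num
    have p2 : Real.log (3 * L) * ((δ * L) / Real.log T) ≤ 2 * δ * L + δ / 2 * L := by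
      calc Real.log (3 * L) * ((δ * L) / Real.log T)
          ≤ Real.log (3 * L) * (2 * δ * L / Real.log L) := mul_le_mul_of_nonneg_left hE2 hb0
        _ = 2 * δ * L + (2 * δ * L) * (Real.log 3 / Real.log L) := by
            rw [hb]
            have : Real.log L ≠ 0 := by linarith
            field_simp
            ring
        _ ≤ 2 * δ * L + (2 * δ * L) * (1 / 4) := by
            have h1 : Real.log 3 / Real.log L ≤ 1 / 4 := by
              rw [div_le_div_iff₀ (by linarith) (by norm_num)]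
              linarith
            have := mul_le_mul_of_nonneg_left h1 (show 0 ≤ 2 * δ * L by positivity)
            linarith
        _ = 2 * δ * L + δ / 2 * L := by ring
    linarith
  have hlog : Tendsto (fun X : ℕ => Real.log X) atTop atTop :=
    Real.tendsto_log_atTop.comp tendsto_natCast_atTop_atTop
  obtain ⟨X₀, hX₀⟩ := eventually_atTop.mp ((hlog.eventually key).and (eventually_gt_atTop 0))
  refine ⟨X₀, fun X hX s hs => ?_⟩
  obtain ⟨⟨hL1, T, hT2, hT⟩, hX0⟩ := hX₀ X hX
  set L := Real.log X with hL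
  have hX0' : (0 : ℝ) < X := by exact_mod_cast hX0
  have hXδ : (X : ℝ) ^ δ = Real.exp (δ * L) := by
    rw [Real.rpow_def_of_pos hX0', mul_comm]
  have hXδ1 : 1 ≤ (X : ℝ) ^ δ := by
    rw [hXδ, ← Real.exp_zero]
    exact Real.exp_le_exp.mpr (by positivity)
  let N : ℕ := ⌊(X : ℝ) ^ δ⌋₊
  have hmaps : ∀ n ∈ s, rad n ∈ Finset.Icc 1 N := by
    intro n hn
    rw [Finset.mem_Icc]
    exact ⟨rad_pos n, Nat.le_floor (hs n hn).2.2⟩
  let F : ℕ := ⌊Real.exp (3 * δ * L)⌋₊
  have hlog2 : ((Nat.log 2 X + 1 : ℕ) : ℝ) ≤ 3 * L := by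
    have h1 : (2 : ℕ) ^ Nat.log 2 X ≤ X := Nat.pow_log_le_self 2 (by omega)
    have h2 : ((2 : ℝ) ^ Nat.log 2 X) ≤ X := by exact_mod_cast h1
    have h3 := Real.log_le_log (by positivity) h2
    rw [Real.log_pow] at h3
    have h4 : (1 / 2 : ℝ) < Real.log 2 := by
      have := Real.log_two_gt_d9
      linarith
    have h5 : (Nat.log 2 X : ℝ) * (1 / 2) ≤ (Nat.log 2 X : ℝ) * Real.log 2 :=
      mul_le_mul_of_nonneg_left h4.le (by positivity)
    push_cast
    linarith
  have hfib : ∀ ρ ∈ Finset.Icc 1 N, (s.filter fun n => rad n = ρ).card ≤ F := by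
    intro ρ hρ
    rw [Finset.mem_Icc] at hρ
    apply Nat.le_floor
    have h1 := fibre_le X ρ (s.filter fun n => rad n = ρ) (by
      intro n hn
      rw [Finset.mem_filter] at hn
      exact ⟨(hs n hn.1).1, (hs n hn.1).2.1, hn.2⟩)
    have h2 : (ρ : ℝ) ≤ Real.exp (δ * L) := by
      rw [← hXδ]
      exact (Nat.le_floor_iff (by positivity)).mp hρ.2
    have h3 := omega_le ρ T hρ.1 hT2 (δ * L) h2
    have h3L : (1 : ℝ) ≤ 3 * L := by linarith
    calc ((s.filter fun n => rad n = ρ).card : ℝ)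
        ≤ (((Nat.log 2 X + 1) ^ ρ.primeFactors.card : ℕ) : ℝ) := by exact_mod_cast h1
      _ = ((Nat.log 2 X + 1 : ℕ) : ℝ) ^ ρ.primeFactors.card := by push_cast; rfl
      _ ≤ (3 * L) ^ ρ.primeFactors.card := pow_le_pow_left₀ (by positivity) hlog2 _
      _ = (3 * L) ^ (ρ.primeFactors.card : ℝ) := (Real.rpow_natCast _ _).symm
      _ ≤ (3 * L) ^ ((T : ℝ) + (δ * L) / Real.log T) := Real.rpow_le_rpow_of_exponent_le h3L h3
      _ ≤ Real.exp (3 * δ * L) := hT
  have hcard := Finset.card_le_mul_card_image_of_maps_to hmaps F hfib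
  rw [Nat.card_Icc, Nat.add_sub_cancel] at hcard
  calc (s.card : ℝ) ≤ ((F * N : ℕ) : ℝ) := by exact_mod_cast hcard
    _ = (F : ℝ) * N := by push_cast; rfl
    _ ≤ Real.exp (3 * δ * L) * Real.exp (δ * L) := by
        apply mul_le_mul (Nat.floor_le (Real.exp_pos _).le) _ (by positivity) (Real.exp_pos _).le
        rw [← hXδ]
        exact Nat.floor_le (by positivity)
    _ = (X : ℝ) ^ (4 * δ) := by
        rw [← Real.exp_add, Real.rpow_def_of_pos hX0']
        congr 1
        rw [← hL]
        ring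

end Pool.Agent.W505.FC
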