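import Pool.Agent.W505.FC.FCInt
import Pool.Agent.W505.FC.FCNa

set_option autoImplicit false

namespace Pool.Agent.W505.FC

theorem INT.main : Pool.Agent.W232.FC.S_INT := int_main

theorem DIV.main (h : Pool.Agent.W232.FC.S_INT) : Pool.Agent.W232.FC.S_DIV := div_main h

theorem AN.main : Pool.Agent.W232.FC.S_AN := an_main

theorem NA.main : Pool.Agent.W232.FC.S_NA := na_main

end Pool.Agent.W505.FC
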