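import Pool.Agent.W232.FC.Stm

set_option autoImplicit false

namespace Pool.Agent.W505.FC

open Filter Asymptotics

/-- `a log L ≤ b L ^ r` for large `L` -/
theorem ev_log_le {a b r : ℝ} (hb : 0 < b) (hr : 0 < r) :
    ∀ᶠ L : ℝ in atTop, a * Real.log L ≤ b * L ^ r := by
  have h1 : (fun L : ℝ => a * Real.log L) =o[atTop] fun L : ℝ => L ^ r :=
    (isLittleO_log_rpow_atTop hr).const_mul_left a
  filter_upwards [h1.def hb, eventually_gt_atTop 0] with L hL hL0
  rw [Real.norm_eq_abs, Real.norm_eq_abs, abs_of_nonneg (Real.rpow_nonneg hL0.le r)] at hL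
  exact (le_abs_self _).trans hL

/-- the choice of `T` -/
theorem ev_T (C : ℕ) (hC : 1 ≤ C) : ∀ᶠ L : ℝ in atTop, ∃ T : ℕ, 2 ≤ T ∧
    (T : ℝ) ^ C ≤ 2 ^ C * L ^ (1 / 2 : ℝ) ∧ 1 / (2 * C) * Real.log L ≤ Real.log T := by
  have hC0 : (0 : ℝ) < C := by exact_mod_cast hC
  have hr : (0 : ℝ) < 1 / (2 * C) := by positivity
  filter_upwards [(tendsto_rpow_atTop hr).eventually_ge_atTop 2, eventually_gt_atTop 0] with L hL hL0
  refine ⟨⌈L ^ (1 / (2 * C) : ℝ)⌉₊, ?_, ?_, ?_⟩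
  · have := hL.trans (Nat.le_ceil (L ^ (1 / (2 * C) : ℝ)))
    exact_mod_cast this
  · have h1 : ((⌈L ^ (1 / (2 * C) : ℝ)⌉₊ : ℕ) : ℝ) ≤ 2 * L ^ (1 / (2 * C) : ℝ) := by
      have := (Nat.ceil_lt_add_one (Real.rpow_nonneg hL0.le (1 / (2 * C) : ℝ))).le
      linarith
    calc ((⌈L ^ (1 / (2 * C) : ℝ)⌉₊ : ℕ) : ℝ) ^ C ≤ (2 * L ^ (1 / (2 * C) : ℝ)) ^ C :=
          pow_le_pow_left₀ (by positivity) h1 C
      _ = 2 ^ C * L ^ (1 / 2 : ℝ) := by
          rw [mul_pow, ← Real.rpow_natCast (L ^ (1 / (2 * C) : ℝ)), ← Real.rpow_mul hL0.le]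
          congr 2
          field_simp
  · rw [← Real.log_rpow hL0]
    exact Real.log_le_log (Real.rpow_pos_of_pos hL0 _) (Nat.le_ceil _)

theorem an_main : Pool.Agent.W232.FC.S_AN := by
  intro C hC
  have hC0 : (0 : ℝ) < C := by exact_mod_cast hC
  have hC1 : (1 : ℝ) ≤ C := by exact_mod_cast hC
  refine ⟨4 * (C : ℝ) ^ 2 + 1, by positivity, fun δ hδ => ?_⟩
  have key : ∀ᶠ L : ℝ in atTop, ∃ T : ℕ, 2 ≤ T ∧
      (C * L) ^ (C * (T : ℝ) ^ C + C * (δ * L) / Real.log T) ≤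
        Real.exp ((4 * (C : ℝ) ^ 2 + 1) * δ * L) := by
    filter_upwards [ev_T C hC, eventually_ge_atTop (C : ℝ), eventually_gt_atTop (Real.exp 1),
      ev_log_le (a := 2 * (C * 2 ^ C)) (b := δ) (r := 1 / 2) hδ (by norm_num)] with L hT hLC hLe hlog
    obtain ⟨T, hT2, hT3, hT4⟩ := hT
    refine ⟨T, hT2, ?_⟩
    have hL0 : 0 < L := (Real.exp_pos 1).trans hLe
    have hlogL : 1 < Real.log L := by
      rw [← Real.log_exp 1]
      exact Real.log_lt_log (Real.exp_pos 1) hLe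
    have hL1 : 1 ≤ L := hC1.trans hLC
    have hlogT : 0 < Real.log T := Real.log_pos (by exact_mod_cast (by omega : 1 < T))
    have hCL : 0 < C * L := by positivity
    have hb : Real.log (C * L) ≤ 2 * Real.log L := by
      rw [Real.log_mul hC0.ne' hL0.ne']
      have := Real.log_le_log hC0 hLC
      linarith
    have hb0 : 0 ≤ Real.log (C * L) := Real.log_nonneg (one_le_mul_of_one_le_of_one_le hC1 hL1)
    rw [Real.rpow_def_of_pos hCL]
    apply Real.exp_le_exp.mpr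
    have hE : C * (T : ℝ) ^ C + C * (δ * L) / Real.log T ≤
        C * (2 ^ C * L ^ (1 / 2 : ℝ)) + 2 * C ^ 2 * δ * L / Real.log L := by
      apply add_le_add
      · exact mul_le_mul_of_nonneg_left hT3 hC0.le
      · rw [div_le_div_iff₀ hlogT (by linarith)]
        have h1 : 2 * C ^ 2 * δ * L * (1 / (2 * C) * Real.log L) ≤
            2 * C ^ 2 * δ * L * Real.log T := mul_le_mul_of_nonneg_left hT4 (by positivity)
        calc C * (δ * L) * Real.log L = 2 * C ^ 2 * δ * L * (1 / (2 * C) * Real.log L) := by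
              field_simp
          _ ≤ _ := h1
    have hE0 : 0 ≤ C * (T : ℝ) ^ C + C * (δ * L) / Real.log T := by positivity
    calc Real.log (C * L) * (C * (T : ℝ) ^ C + C * (δ * L) / Real.log T)
        ≤ (2 * Real.log L) * (C * (2 ^ C * L ^ (1 / 2 : ℝ)) + 2 * C ^ 2 * δ * L / Real.log L) :=
          mul_le_mul hb hE hE0 (by linarith)
      _ = (2 * (C * 2 ^ C) * Real.log L) * L ^ (1 / 2 : ℝ) + 4 * C ^ 2 * δ * L := by
          have : Real.log L ≠ 0 := by linarith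
          field_simp
          ring
      _ ≤ (δ * L ^ (1 / 2 : ℝ)) * L ^ (1 / 2 : ℝ) + 4 * C ^ 2 * δ * L := by
          gcongr
      _ = (4 * (C : ℝ) ^ 2 + 1) * δ * L := by
          have : L ^ (1 / 2 : ℝ) * L ^ (1 / 2 : ℝ) = L := by
            rw [← Real.rpow_add hL0]
            norm_num
          linear_combination δ * this
  have hlog : Tendsto (fun X : ℕ => Real.log X) atTop atTop :=
    Real.tendsto_log_atTop.comp tendsto_natCast_atTop_atTop
  obtain ⟨X₀, hX₀⟩ := eventually_atTop.mp ((hlog.eventually key).and (eventually_gt_atTop 0))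
  refine ⟨X₀, fun X hX => ?_⟩
  obtain ⟨⟨T, hT, h⟩, hX0⟩ := hX₀ X hX
  refine ⟨T, hT, h.trans (le_of_eq ?_)⟩
  rw [Real.rpow_def_of_pos (by exact_mod_cast hX0)]
  congr 1
  ring

end Pool.Agent.W505.FC
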