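import Pool.Agent.W232.FC.Stm

set_option autoImplicit false

namespace Pool.Agent.W505.FC

open NumberField

/-- the product of the absolute values of the conjugates of a nonzero integer is at least one -/
theorem one_le_prod {K : Type} [Field K] [NumberField K] {x : 𝓞 K} (hx : x ≠ 0) :
    1 ≤ ∏ σ : K →+* ℂ, ‖σ (x : K)‖ := by
  have h1 : ∏ σ : K →+* ℂ, ‖σ (x : K)‖ = |Algebra.norm ℚ (x : K)| := by
    have h := congr_arg (‖·‖) (Algebra.norm_eq_prod_embeddings ℚ ℂ (x : K))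
    rw [norm_prod, ← Fintype.prod_equiv (RingHom.equivRatAlgHom K ℂ) (fun f => ‖f (x : K)‖)
      (fun φ => ‖φ (x : K)‖) fun _ => by simp [RingHom.equivRatAlgHom_apply]] at h
    rw [← h]
    simp
  rw [h1, ← Algebra.coe_norm_int]
  have h2 : Algebra.norm ℤ x ≠ 0 := Algebra.norm_ne_zero_iff.mpr hx
  have h3 := Int.one_le_abs h2
  exact_mod_cast h3

theorem floor_card {a b : ℝ} (hab : a ≤ b) :
    (((Finset.Icc ⌊a⌋ ⌊b⌋).card : ℕ) : ℝ) ≤ b - a + 2 := by
  rw [Int.card_Icc]
  have h0 : 0 ≤ ⌊b⌋ + 1 - ⌊a⌋ := by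
    have := Int.floor_le_floor hab
    omega
  have h1 : (((⌊b⌋ + 1 - ⌊a⌋).toNat : ℕ) : ℝ) = (⌊b⌋ : ℝ) + 1 - ⌊a⌋ := by
    have : (((⌊b⌋ + 1 - ⌊a⌋).toNat : ℕ) : ℤ) = ⌊b⌋ + 1 - ⌊a⌋ := Int.toNat_of_nonneg h0
    exact_mod_cast this
  rw [h1]
  have := Int.floor_le b
  have := Int.lt_floor_add_one a
  linarith

theorem sub_lt_one_of_floor_eq {a b : ℝ} (h : ⌊a⌋ = ⌊b⌋) : |a - b| < 1 := by
  have h1 := Int.floor_le a
  have h2 := Int.lt_floor_add_one a
  have h3 := Int.floor_le b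
  have h4 := Int.lt_floor_add_one b
  rw [h] at h1 h2
  rw [abs_lt]
  constructor <;> linarith

theorem norm_lt_one {z : ℂ} (h1 : |z.re| < 1 / 2) (h2 : |z.im| < 1 / 2) : ‖z‖ < 1 := by
  have := Complex.norm_le_abs_re_add_abs_im z
  linarith

theorem int_main : Pool.Agent.W232.FC.S_INT := by
  classical
  intro K _ _ B hB s hs
  let I : Finset ℤ := Finset.Icc ⌊-(2 * B)⌋ ⌊2 * B⌋
  let T : Finset ((K →+* ℂ) → ℤ × ℤ) := Fintype.piFinset fun _ => I ×ˢ I
  let Φ : 𝓞 K → ((K →+* ℂ) → ℤ × ℤ) := fun x σ => (⌊2 * (σ (x : K)).re⌋, ⌊2 * (σ (x : K)).im⌋)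
  have hmaps : ∀ x ∈ s, Φ x ∈ T := by
    intro x hx
    rw [Fintype.mem_piFinset]
    intro σ
    have hn := hs x hx σ
    have h1 := (abs_le.mp ((Complex.abs_re_le_norm _).trans hn))
    have h2 := (abs_le.mp ((Complex.abs_im_le_norm _).trans hn))
    simp only [Φ, I, Finset.mem_product, Finset.mem_Icc]
    refine ⟨⟨Int.floor_le_floor ?_, Int.floor_le_floor ?_⟩,
      ⟨Int.floor_le_floor ?_, Int.floor_le_floor ?_⟩⟩ <;> linarith
  have hinj : Set.InjOn Φ s := by
    intro x _ y _ hxy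
    by_contra hne
    have hz : x - y ≠ 0 := sub_ne_zero.mpr hne
    have h1 : ∀ σ : K →+* ℂ, ‖σ ((x - y : 𝓞 K) : K)‖ < 1 := by
      intro σ
      have h2 := congrFun hxy σ
      simp only [Φ, Prod.mk.injEq] at h2
      have h3 := sub_lt_one_of_floor_eq h2.1
      have h4 := sub_lt_one_of_floor_eq h2.2
      have h5 : σ ((x - y : 𝓞 K) : K) = σ (x : K) - σ (y : K) := by
        rw [← map_sub]; rfl
      rw [h5]
      apply norm_lt_one
      · rw [Complex.sub_re]
        rw [← mul_sub, abs_mul, abs_two] at h3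
        linarith
      · rw [Complex.sub_im]
        rw [← mul_sub, abs_mul, abs_two] at h4
        linarith
    have h6 : ∏ σ : K →+* ℂ, ‖σ ((x - y : 𝓞 K) : K)‖ < 1 := by
      rw [← Finset.prod_const_one]
      refine Finset.prod_lt_prod_of_nonempty (fun σ _ => ?_) (fun σ _ => h1 σ)
        Finset.univ_nonempty
      rw [norm_pos_iff]
      intro h
      rw [map_eq_zero] at h
      exact hz (RingOfIntegers.coe_eq_zero_iff.mp h)
    exact absurd (one_le_prod hz) (not_le.mpr h6)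
  have hcard : s.card ≤ T.card := Finset.card_le_card_of_injOn Φ hmaps hinj
  have hT : T.card = I.card ^ (2 * Module.finrank ℚ K) := by
    simp only [T, Fintype.card_piFinset, Finset.card_product, Finset.prod_const, Finset.card_univ,
      NumberField.Embeddings.card]
    rw [← pow_two, ← pow_mul]
  have hI : (I.card : ℝ) ≤ 4 * B + 2 := by
    have := floor_card (a := -(2 * B)) (b := 2 * B) (by linarith)
    linarith
  calc (s.card : ℝ) ≤ T.card := by exact_mod_cast hcard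
    _ = (I.card : ℝ) ^ (2 * Module.finrank ℚ K) := by rw [hT]; push_cast; rfl
    _ ≤ (4 * B + 2) ^ (2 * Module.finrank ℚ K) := pow_le_pow_left₀ (by positivity) hI _

theorem div_main (hINT : Pool.Agent.W232.FC.S_INT) : Pool.Agent.W232.FC.S_DIV := by
  classical
  intro K _ _ n L H hn hH hL s hs
  set D := Module.finrank ℚ K with hD
  have hD1 : 1 ≤ D := Module.finrank_pos
  have hlogH : 0 ≤ Real.log H := Real.log_nonneg hH
  have hne : ∀ x ∈ s, x ≠ 0 := by
    intro x hx h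
    obtain ⟨c, hc⟩ := (hs x hx).1
    rw [h, zero_mul] at hc
    exact hn hc
  have hσ0 : ∀ x ∈ s, ∀ σ : K →+* ℂ, 0 < ‖σ (x : K)‖ := by
    intro x hx σ
    rw [norm_pos_iff]
    intro h
    rw [map_eq_zero] at h
    exact hne x hx (RingOfIntegers.coe_eq_zero_iff.mp h)
  set a : ℝ := -((D - 1 : ℕ) : ℝ) * Real.log H with ha
  have ha0 : a ≤ Real.log H := by
    have : (0:ℝ) ≤ ((D - 1 : ℕ) : ℝ) * Real.log H := by positivity
    rw [ha]
    linarith
  have hlog : ∀ x ∈ s, ∀ σ : K →+* ℂ, a ≤ Real.log ‖σ (x : K)‖ ∧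
      Real.log ‖σ (x : K)‖ ≤ Real.log H := by
    intro x hx σ
    refine ⟨?_, Real.log_le_log (hσ0 x hx σ) ((hs x hx).2 σ)⟩
    have h1 := one_le_prod (hne x hx)
    rw [← Finset.mul_prod_erase Finset.univ _ (Finset.mem_univ σ)] at h1
    have h2 : ∏ τ ∈ Finset.univ.erase σ, ‖τ (x : K)‖ ≤ H ^ (D - 1) := by
      have h3 : (Finset.univ.erase σ).card = D - 1 := by
        rw [Finset.card_erase_of_mem (Finset.mem_univ σ), Finset.card_univ,
          NumberField.Embeddings.card]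
      rw [← h3, ← Finset.prod_const]
      exact Finset.prod_le_prod (fun τ _ => norm_nonneg _) (fun τ _ => (hs x hx).2 τ)
    have h4 : 1 ≤ ‖σ (x : K)‖ * H ^ (D - 1) :=
      h1.trans (mul_le_mul_of_nonneg_left h2 (norm_nonneg _))
    have hH0 : 0 < H := by linarith
    have h5 := Real.log_nonneg h4
    rw [Real.log_mul (hσ0 x hx σ).ne' (pow_pos hH0 _).ne', Real.log_pow] at h5
    rw [ha]
    linarith
  let J : Finset ℤ := Finset.Icc ⌊a⌋ ⌊Real.log H⌋
  let A : Finset (Ideal (𝓞 K)) := s.image fun x => Ideal.span {x}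
  have hA : A.card ≤ L := by
    apply hL
    intro Q hQ
    obtain ⟨x, hx, rfl⟩ := Finset.mem_image.mp hQ
    rw [Ideal.dvd_span_singleton, Ideal.mem_span_singleton]
    exact (hs x hx).1
  let T : Finset (Ideal (𝓞 K) × ((K →+* ℂ) → ℤ)) := A ×ˢ Fintype.piFinset fun _ => J
  let Φ : 𝓞 K → Ideal (𝓞 K) × ((K →+* ℂ) → ℤ) := fun x =>
    (Ideal.span {x}, fun σ => ⌊Real.log ‖σ (x : K)‖⌋)
  have hmaps : ∀ x ∈ s, Φ x ∈ T := by
    intro x hx
    simp only [T, Φ, Finset.mem_product, Fintype.mem_piFinset, J, Finset.mem_Icc]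
    refine ⟨Finset.mem_image.mpr ⟨x, hx, rfl⟩, fun σ => ?_⟩
    exact ⟨Int.floor_le_floor (hlog x hx σ).1, Int.floor_le_floor (hlog x hx σ).2⟩
  have hfib : ∀ b ∈ T, (s.filter fun x => Φ x = b).card ≤ 14 ^ (2 * D) := by
    intro b _
    rcases (s.filter fun x => Φ x = b).eq_empty_or_nonempty with he | ⟨x0, hx0⟩
    · rw [he]; simp
    rw [Finset.mem_filter] at hx0
    have hu : ∀ x ∈ s.filter (fun x => Φ x = b), ∃ u : 𝓞 K, x = x0 * u ∧
        ∀ σ : K →+* ℂ, ‖σ (u : K)‖ ≤ 3 := by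
      intro x hx
      rw [Finset.mem_filter] at hx
      have h1 : Φ x = Φ x0 := hx.2.trans hx0.2.symm
      simp only [Φ, Prod.mk.injEq] at h1
      have h2 : Associated x0 x := (Ideal.span_singleton_eq_span_singleton.mp h1.1).symm
      obtain ⟨u, hu⟩ := h2
      refine ⟨u, hu.symm, fun σ => ?_⟩
      have h3 := congrFun h1.2 σ
      have h4 := sub_lt_one_of_floor_eq h3
      have h5 : ‖σ (x : K)‖ = ‖σ (x0 : K)‖ * ‖σ ((u : 𝓞 K) : K)‖ := by
        rw [← norm_mul, ← map_mul, ← hu]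
        rfl
      have h6 : 0 < ‖σ ((u : 𝓞 K) : K)‖ := by
        have := hσ0 x hx.1 σ
        rw [h5] at this
        exact (pos_iff_pos_of_mul_pos this).mp (hσ0 x0 hx0.1 σ)
      rw [h5, Real.log_mul (hσ0 x0 hx0.1 σ).ne' h6.ne', add_sub_cancel_left] at h4
      have h7 := (abs_lt.mp h4).2
      have h8 : ‖σ ((u : 𝓞 K) : K)‖ < Real.exp 1 := by
        rw [← Real.exp_log h6]
        exact Real.exp_lt_exp.mpr h7
      have := Real.exp_one_lt_d9
      linarith
    choose! u hu1 hu2 using hu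
    have hcard : (s.filter fun x => Φ x = b).card ≤ ((s.filter fun x => Φ x = b).image u).card := by
      rw [Finset.card_image_of_injOn]
      intro x hx y hy hxy
      rw [hu1 x hx, hu1 y hy, hxy]
    have h14 := hINT K 3 (by norm_num) ((s.filter fun x => Φ x = b).image u) (by
      intro v hv σ
      obtain ⟨x, hx, rfl⟩ := Finset.mem_image.mp hv
      exact hu2 x hx σ)
    norm_num at h14
    have h15 : (((s.filter fun x => Φ x = b).image u).card : ℝ) ≤ ((14 ^ (2 * D) : ℕ) : ℝ) := by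
      push_cast
      exact h14
    exact hcard.trans (by exact_mod_cast h15)
  have hcard := Finset.card_le_mul_card_image_of_maps_to hmaps _ hfib
  have hT : (T.card : ℝ) ≤ L * (D * Real.log H + 2) ^ D := by
    have h1 : T.card = A.card * J.card ^ D := by
      simp only [T, Finset.card_product, Fintype.card_piFinset, Finset.prod_const,
        Finset.card_univ, NumberField.Embeddings.card, ← hD]
    rw [h1]
    push_cast
    have h2 : (A.card : ℝ) ≤ L := by exact_mod_cast hA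
    have h3 : (J.card : ℝ) ≤ D * Real.log H + 2 := by
      refine (floor_card ha0).trans (le_of_eq ?_)
      rw [ha, Nat.cast_sub hD1]
      push_cast
      ring
    gcongr
  calc (s.card : ℝ) ≤ (14 ^ (2 * D) * T.card : ℕ) := by exact_mod_cast hcard
    _ = 14 ^ (2 * D) * (T.card : ℝ) := by push_cast; rfl
    _ ≤ 14 ^ (2 * D) * (L * (D * Real.log H + 2) ^ D) := by gcongr
    _ = L * (D * Real.log H + 2) ^ D * 14 ^ (2 * D) := by ring

end Pool.Agent.W505.FC
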